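import Pool.Agent.Lib_helper19.FLG.PBW

/-!
# Noetherian graded algebras of finite global dimension with a flag are domains

Let `A` be a connected graded algebra over a field, with polynomial growth, left noetherian, of
finite global dimension (for instance any left noetherian Artin-Schelter regular algebra, of any
dimension).

* FLAGS.  Let `z_0, ..., z_(r-1)` be homogeneous elements of positive degree such that, with
  `I_k` the left ideal generated by the `z_m`, `m > k`, one has `a z_k ∈ I_k ↔ a ∈ I_k` for all `k`,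
  and such that the complement of the left ideal generated by all the `z_k` is closed under
  multiplication.  Then `A` is a domain.
* In particular: if the ordered monomials `z_0^(a_0) ... z_(r-1)^(a_(r-1))` are a basis of `A` and
  `z_j z_i` (`i < j`) lies in the left ideal generated by the `z_m`, `m > i`, then `A` is a domain.

The elements `z_k` need not be normal, no element of `A` needs to be normal.
-/

set_option autoImplicit false

namespace Pool.Agent.Results.MP_ef4bac_al.Flags

open Pool.Agent.FLG

universe v u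

/-- The flag of left ideals, turned into an initial flag. -/
theorem Ik_eq_J {A : Type u} [Ring A] {r : ℕ} (z : Fin r → A) (k : ℕ) (hk : k ≤ r) :
    Ik (fun i => if h : i < r then z (Fin.rev ⟨i, h⟩) else 0) k = J z (r - k) := by
  unfold Ik J
  congr 1
  ext x
  simp only [Set.mem_image, Set.mem_setOf_eq]
  constructor
  · rintro ⟨i, hi, rfl⟩
    have hir : i < r := lt_of_lt_of_le hi hk
    refine ⟨Fin.rev ⟨i, hir⟩, ?_, ?_⟩
    · rw [Fin.val_rev]
      simp only
      omega
    · rw [dif_pos hir]
  · rintro ⟨m, hm, rfl⟩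
    have h1 := m.isLt
    refine ⟨r - (m.val + 1), by omega, ?_⟩
    have h2 : r - (m.val + 1) < r := by omega
    rw [dif_pos h2]
    congr 1
    apply Fin.ext
    rw [Fin.val_rev]
    simp only
    omega

theorem J_Ioi {A : Type u} [Ring A] {r : ℕ} (z : Fin r → A) (k : Fin r) :
    Ideal.span (z '' Set.Ioi k) = J z (k.val + 1) := by
  unfold J
  congr 1

theorem J_range {A : Type u} [Ring A] {r : ℕ} (z : Fin r → A) :
    Ideal.span (Set.range z) = J z 0 := by
  unfold J
  rw [← Set.image_univ]
  congr 1
  ext x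
  simp

theorem result {K : Type v} [Field K] {A : Type u} [Ring A] [Algebra K A] [Nontrivial A]
    (𝒜 : ℕ → Submodule K A) [GradedAlgebra 𝒜] [∀ s, Module.Finite K (𝒜 s)]
    [IsNoetherianRing A]
    (h0 : ∀ a ∈ 𝒜 0, ∃ c : K, a = algebraMap K A c)
    (hgrow : ∃ C m : ℕ, ∀ s, Module.finrank K (𝒜 s) ≤ C * (s + 1) ^ m)
    (d : ℕ) (gd : ∀ M : ModuleCat.{u} A, CategoryTheory.HasProjectiveDimensionLT M (d + 1))
    (r : ℕ) (z : Fin r → A) (hz : ∀ k, ∃ e, 0 < e ∧ z k ∈ 𝒜 e) :
    ((∀ k a, a * z k ∈ Ideal.span (z '' Set.Ioi k) ↔ a ∈ Ideal.span (z '' Set.Ioi k)) →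
      (∀ a b, a * b ∈ Ideal.span (Set.range z) →
        a ∈ Ideal.span (Set.range z) ∨ b ∈ Ideal.span (Set.range z)) → IsDomain A) ∧
    (LinearIndependent K (fun a : Fin r → ℕ => (List.ofFn fun i => z i ^ a i).prod) →
      Submodule.span K (Set.range fun a : Fin r → ℕ => (List.ofFn fun i => z i ^ a i).prod) = ⊤ →
      (∀ i j, i < j → z j * z i ∈ Ideal.span (z '' Set.Ioi i)) → IsDomain A) := by
  have main : (∀ k a, a * z k ∈ Ideal.span (z '' Set.Ioi k) ↔ a ∈ Ideal.span (z '' Set.Ioi k)) →
      (∀ a b, a * b ∈ Ideal.span (Set.range z) →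
        a ∈ Ideal.span (Set.range z) ∨ b ∈ Ideal.span (Set.range z)) → IsDomain A := by
    intro hflag hprime
    refine flag_domain 𝒜 h0 hgrow gd r
      (fun i => if h : i < r then z (Fin.rev ⟨i, h⟩) else 0) ?_ ?_ ?_
    · intro k hk
      simp only [dif_pos hk]
      exact hz _
    · intro k hk a
      rw [Ik_eq_J z k hk.le]
      simp only [dif_pos hk]
      have h1 : r - k = (Fin.rev (⟨k, hk⟩ : Fin r)).val + 1 := by
        rw [Fin.val_rev]
        simp only
        omega
      rw [h1, ← J_Ioi]
      exact hflag _ a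
    · rw [Ik_eq_J z r le_rfl, Nat.sub_self, ← J_range]
      exact hprime
  refine ⟨main, fun hli hsp hst => ?_⟩
  have hli' : LinearIndependent K (mon z) := hli
  have hsp' : ⊤ ≤ Submodule.span K (Set.range (mon z)) := hsp.ge
  have hst' : ∀ i j : Fin r, i < j → z j * z i ∈ J z (i.val + 1) := by
    intro i j hij
    rw [← J_Ioi]
    exact hst i j hij
  refine main ?_ ?_
  · intro k a
    rw [J_Ioi]
    exact flag_of_basis z hli' hsp' hst' k a
  · intro a b
    rw [J_range]
    exact prime_of_basis 𝒜 z h0 hz hsp' a b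

end Pool.Agent.Results.MP_ef4bac_al.Flags
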