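import Pool.Agent.Lib_helper19.NAS.Main

/-!
# Every noetherian Artin-Schelter regular algebra is a domain

Let `K` be a field and let `A` be a connected graded `K`-algebra (`A = ⊕ A_n`, `n ≥ 0`, `A_0 = K`,
all `A_n` finite-dimensional), left and right noetherian, of finite global dimension at most `d`,
of polynomial growth, with the Gorenstein condition: `Ext^i(K, A) = 0` for `i ≠ d` and
`Ext^d(K, A)` has dimension one over `K`, where `K = A/A₊` and `A` are left modules. Then `A` is a
domain. There is no restriction on `d`.

`Ext` is Mathlib's `CategoryTheory.Abelian.Ext` in the category of left `A`-modules; the global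
dimension is expressed by `HasProjectiveDimensionLT`.
-/

set_option autoImplicit false

namespace Pool.Agent.Results.MP_ef4bac_al.NoetherianDomain

open CategoryTheory

universe u

/-- **Noetherian Artin-Schelter regular algebras are domains.** -/
theorem result {K A : Type u} [Field K] [Ring A] [Nontrivial A] [Algebra K A]
    -- `A` is a connected graded algebra
    (𝒜 : ℕ → Submodule K A) [GradedAlgebra 𝒜] [∀ n, Module.Finite K (𝒜 n)]
    (connected : ∀ a ∈ 𝒜 0, ∃ c : K, a = algebraMap K A c)
    -- `A` is left and right noetherian
    [IsNoetherianRing A] [IsNoetherianRing Aᵐᵒᵖ]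
    -- `A` has polynomial growth
    (growth : ∃ C m : ℕ, ∀ n, Module.finrank K (𝒜 n) ≤ C * (n + 1) ^ m)
    (d : ℕ)
    -- `A` has global dimension at most `d`
    (gldim : ∀ M : ModuleCat.{u} A, HasProjectiveDimensionLT M (d + 1))
    -- the Gorenstein condition
    (gor : ∀ i, i ≠ d → Subsingleton (Abelian.Ext.{u}
      (ModuleCat.of A (A ⧸ (HomogeneousIdeal.irrelevant 𝒜).toIdeal)) (ModuleCat.of A A) i))
    (gor_d : Module.finrank K (Abelian.Ext.{u}
      (ModuleCat.of A (A ⧸ (HomogeneousIdeal.irrelevant 𝒜).toIdeal)) (ModuleCat.of A A) d) = 1) :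
    IsDomain A :=
  Pool.Agent.NAS.main 𝒜 inferInstance connected growth d gldim gor gor_d

end Pool.Agent.Results.MP_ef4bac_al.NoetherianDomain
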